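import Pool.Agent.Lib_helper23.STSQ.Defs
import Pool.Agent.Lib_helper23.STSQ.Main

/-!
# Every finite group of order `n` is the automorphism group of a Steiner triple system with at
most `min (4800 n², n¹⁵)` points
-/

set_option autoImplicit false

namespace Pool.Agent.Results.MP_9c4767_co.QuadraticOrder

open Pool.Agent.Lib_helper23.STSQ

universe u

private theorem ofBlocks {G : Type} [Group G] {m : ℕ} (B : Finset (Finset (Fin m)))
    (h3 : ∀ b ∈ B, b.card = 3)
    (hp : ∀ x y : Fin m, x ≠ y → ∃! b, b ∈ B ∧ x ∈ b ∧ y ∈ b)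
    (φ : G →* Equiv.Perm (Fin m)) (hφ : Function.Injective φ)
    (haut : ∀ σ : Equiv.Perm (Fin m),
      (σ ∈ φ.range ↔ ∀ b : Finset (Fin m), (b ∈ B ↔ b.map σ.toEmbedding ∈ B))) :
    ∃ X : SteinerTripleSystem (Fin m), Nonempty (X.Aut ≃* G) := by
  refine ⟨⟨{b | b ∈ B}, h3, hp⟩, ?_⟩
  have h : SteinerTripleSystem.Aut ⟨{b | b ∈ B}, h3, hp⟩ = φ.range := by
    ext σ
    rw [haut σ]
    change (fun b : Finset (Fin m) => b.map σ.toEmbedding) '' {b | b ∈ B} = {b | b ∈ B} ↔ _
    constructor
    · intro h b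
      constructor
      · intro hb
        have : b.map σ.toEmbedding ∈ {b | b ∈ B} := by
          rw [← h]
          exact ⟨b, hb, rfl⟩
        exact this
      · intro hb
        have : b.map σ.toEmbedding ∈ {b | b ∈ B} := hb
        rw [← h] at this
        obtain ⟨b', hb', he⟩ := this
        have := Finset.map_injective _ he
        rw [← this]
        exact hb'
    · intro h
      ext b
      constructor
      · rintro ⟨b', hb', rfl⟩
        exact (h b').1 hb'
      · intro hb
        have e : (b.map (σ⁻¹).toEmbedding).map σ.toEmbedding = b := by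
          ext x
          simp only [Finset.mem_map_equiv]
          change σ ((Equiv.symm σ) x) ∈ b ↔ x ∈ b
          rw [Equiv.apply_symm_apply]
        refine ⟨b.map (σ⁻¹).toEmbedding, ?_, e⟩
        change b.map (σ⁻¹).toEmbedding ∈ B
        rw [h, e]
        exact hb
  exact ⟨(MulEquiv.subgroupCongr h).trans (MonoidHom.ofInjective hφ).symm⟩

/-- **Q1, yes**: every finite group `G` of order `n` is isomorphic to the automorphism group of a
Steiner triple system whose order `m` is at most `4800 n²` and at most `n¹⁵`. -/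
theorem result (G : Type u) [Group G] [Finite G] :
    ∃ (m : ℕ) (X : SteinerTripleSystem (Fin m)),
      m ≤ 4800 * Nat.card G ^ 2 ∧ m ≤ Nat.card G ^ 15 ∧ Nonempty (X.Aut ≃* G) := by
  haveI : Small.{0} G := Countable.toSmall G
  haveI : Finite (Shrink.{0} G) := Finite.of_equiv G (equivShrink G)
  letI : Fintype (Shrink.{0} G) := Fintype.ofFinite _
  have E : Shrink.{0} G ≃* G := Shrink.mulEquiv
  obtain ⟨n, hn⟩ : ∃ n, Nat.card G = n := ⟨_, rfl⟩
  have hc : Fintype.card (Shrink.{0} G) = n := by
    rw [← Nat.card_eq_fintype_card, Nat.card_congr E.toEquiv, hn]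
  rw [hn]
  by_cases h2 : 2 ≤ n
  · obtain ⟨V, hV, op, φ, h1, hs, h3, h4⟩ := main_sq (Shrink.{0} G) (by rw [hc]; exact h2)
    obtain ⟨B, h5, h6, φ', h7, h8⟩ :=
      Pool.Agent.Lib_helper60.Sts.convert_type op hs φ h3 h4
    obtain ⟨X, ⟨F⟩⟩ := ofBlocks B h5 h6 φ' h7 h8
    rw [hc] at h1
    refine ⟨Fintype.card V, X, h1, h1.trans ?_, ⟨F.trans E⟩⟩
    calc 4800 * n ^ 2 ≤ 2 ^ 13 * n ^ 2 := Nat.mul_le_mul_right _ (by norm_num)
      _ ≤ n ^ 13 * n ^ 2 := Nat.mul_le_mul_right _ (Nat.pow_le_pow_left h2 13)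
      _ = n ^ 15 := by ring
  · have hpos : 0 < n := by
      rw [← hn]
      exact Nat.card_pos
    have h1 : n = 1 := by omega
    have hs : Subsingleton (Shrink.{0} G) :=
      Fintype.card_le_one_iff_subsingleton.1 (by rw [hc, h1])
    obtain ⟨X, ⟨F⟩⟩ := ofBlocks (G := Shrink.{0} G) (m := 1) ∅ (by simp)
      (fun x y hxy => absurd (Subsingleton.elim x y) hxy) 1
      (fun a b _ => Subsingleton.elim a b) (fun σ => by
        have : σ = 1 := Subsingleton.elim _ _
        subst this
        constructor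
        · intro _ b
          simp
        · intro _
          exact Subgroup.one_mem _)
    exact ⟨1, X, by rw [h1]; norm_num, by rw [h1]; norm_num, ⟨F.trans E⟩⟩

end Pool.Agent.Results.MP_9c4767_co.QuadraticOrder
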